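import Mathlib
import Pool.Agent.R222.Mand.Defs
import Pool.Agent.R222.Mand.Final

/-!
# The extremal rule at the non-real points of least modulus

At a non-real point `q` of least modulus of the Mandelbrot set for pairs of linear maps the power
series vanishing at `q` is unique, even among all real coefficients in `[-1,1]`, all its
coefficients are `±1`, and the `k`-th one is the sign of the non-zero number
`Re (q ^ k / ∑ j, j a_j q ^ j)`, for every `k ≥ 1`.

Idea of the proof. Moving the `k`-th coefficient moves the zero along a curve, on which the modulus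
may not decrease. If the first derivative of the modulus vanishes, then the second one is a negative
multiple of `2 k - 1 - Re (q f''(q) / f'(q))`, which is positive for `k ≥ 4`. So the first
derivative does not vanish and its sign determines the coefficient. For `k ≤ 3` the first derivative
is computed, after an enclosure of all zeros of small modulus by about 1900 certificates.
-/

set_option autoImplicit false

open Set

namespace Pool.Agent.Results.MP_5dd2d4_an.ExtremalRule

open Pool.Agent.R222.Mand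

/-- `a` is a sequence of real coefficients in `[-1,1]` with `a 0 = 1` whose power series vanishes
at `q`. -/
def IsRep (q : ℂ) (a : ℕ → ℝ) : Prop :=
  a 0 = 1 ∧ (∀ k, |a k| ≤ 1) ∧ ∑' k, (a k : ℂ) * q ^ k = 0

/-- The least modulus `ρ` of the non-real points of the Mandelbrot set for pairs of linear maps is
also the least modulus of the non-real zeros of power series with constant term `1` and real
coefficients in `[-1,1]`. Every such zero `q` with `|q| = ρ` belongs to the Mandelbrot set, its
power series is unique, and its coefficients obey the rule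
`a k = sign (Re (q ^ k / ∑ j, j a_j q ^ j))`, the real part being non-zero, for every `k ≥ 1`. -/
theorem result :
    ∃ ρ : ℝ, IsLeast {r : ℝ | ∃ q ∈ mandelbrotPairs, q.im ≠ 0 ∧ ‖q‖ = r} ρ ∧
      IsLeast {r : ℝ | ∃ q : ℂ, ‖q‖ < 1 ∧ q.im ≠ 0 ∧ (∃ a, IsRep q a) ∧ ‖q‖ = r} ρ ∧
      ∀ q : ℂ, q.im ≠ 0 → ‖q‖ = ρ → ∀ a : ℕ → ℝ, IsRep q a →
        q ∈ mandelbrotPairs ∧ (∀ b : ℕ → ℝ, IsRep q b → b = a) ∧
        ∀ k : ℕ, 1 ≤ k → (q ^ k / ∑' j : ℕ, (j : ℂ) * (a j : ℂ) * q ^ j).re ≠ 0 ∧
          a k = ((SignType.sign (q ^ k / ∑' j : ℕ, (j : ℂ) * (a j : ℂ) * q ^ j).re : SignType) :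
            ℝ) := by
  obtain ⟨a0, q0, hr0, hW0, hq0, hmin⟩ := rho_spec
  have hlt : ‖q0‖ < 1 := by rw [hq0]; exact lt_of_le_of_lt rho_bounds.2 (by norm_num)
  have hmem : q0 ∈ mandelbrotPairs :=
    mem_of_rule hr0 (rule_all hr0 hW0.im_pos.ne' hq0).1 hlt
  refine ⟨rho, ⟨⟨q0, hmem, hW0.im_pos.ne', hq0⟩, ?_⟩,
    ⟨⟨q0, hlt, hW0.im_pos.ne', ⟨a0, hr0⟩, hq0⟩, ?_⟩, ?_⟩
  · rintro r ⟨q, hq, him, rfl⟩
    obtain ⟨a, ha⟩ := rep_of_mem hq
    exact hmin q ha.realSol him
  · rintro r ⟨q, _, him, ⟨a, ha⟩, rfl⟩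
    exact hmin q ⟨a, ha⟩ him
  · intro q him hn a ha
    have h1 := (rule_all (a := a) ha him hn).1
    have hq1 : ‖q‖ < 1 := by rw [hn]; exact lt_of_le_of_lt rho_bounds.2 (by norm_num)
    exact ⟨mem_of_rule ha h1 hq1, fun b hb => rep_unique hb ha him hn, h1⟩

end Pool.Agent.Results.MP_5dd2d4_an.ExtremalRule
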